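import Pool.Agent.Y798.OG.Stm3

/-! Orthogonal groups: the mean of the square of the distance (job OG-DIFF). -/

set_option autoImplicit false

namespace Pool.Agent.Y722.OG

open Complex Filter Topology MeasureTheory UnitAddTorus NumberField IsDedekindDomain
  Pool.Agent.W540.BE Pool.Agent.TH553.RS Pool.Agent.TH553.ST Pool.Agent.Y798.FC ComplexConjugate
  Pool.Agent.Y798.JL Pool.Agent.Y798.OG
open Pool.Agent.Y139.ID (good_ev)

theorem t : StmDiff := by
  intro K _ _ r W Φ κ θ a ha U hU hθ h B hhB m h2 T hTc hTinv hconj0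
  have hdc := continuous_dens Φ
  -- the number X
  set X : ℝ := ((κ : ℝ) * (Nat.card W : ℝ))⁻¹ * ∫ x, ‖T x‖ ^ 2 * dens Φ x ∂(vol (Fin r)) with hX
  have hTT : Tendsto (cE fun v => (((a v * ‖T (θ v)‖ ^ 2 : ℝ)) : ℂ)) (U : Filter ℝ)
      (𝓝 (X : ℂ)) := by
    have h3 := hθ (fun x => ((‖T x‖ ^ 2 : ℝ) : ℂ)) (by fun_prop) (fun w hw x => by
      rw [hTinv w hw])
    have h4 : (((κ : ℂ) * (Nat.card W : ℂ))⁻¹ *
        ∫ x, ((‖T x‖ ^ 2 : ℝ) : ℂ) * (dens Φ x : ℂ) ∂(vol (Fin r))) = (X : ℂ) := by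
      rw [hX]
      push_cast
      rw [← integral_complex_ofReal]
      congr 1
      refine integral_congr_ae (Eventually.of_forall fun x => ?_)
      push_cast
      rfl
    rw [h4] at h3
    refine h3.congr fun ε => ?_
    congr 1
    funext v
    push_cast
    rfl
  have hconj : Tendsto (cE fun v => (a v : ℂ) * conj (T (θ v)) * h v) (U : Filter ℝ)
      (𝓝 (X : ℂ)) := by
    have h4 : (((κ : ℂ) * (Nat.card W : ℂ))⁻¹ *
        ∫ x, conj (T x) * (T x * (dens Φ x : ℂ)) ∂(vol (Fin r))) = (X : ℂ) := by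
      rw [hX]
      push_cast
      rw [← integral_complex_ofReal]
      congr 1
      refine integral_congr_ae (Eventually.of_forall fun x => ?_)
      simp only
      rw [← mul_assoc, ← Complex.normSq_eq_conj_mul_self, Complex.normSq_eq_norm_sq]
      push_cast
      rfl
    rwa [h4] at hconj0
  obtain ⟨CT, hCT⟩ := isCompact_univ.exists_bound_of_continuousOn (f := T) hTc.continuousOn
  have hTb : ∀ v, ‖T (θ v)‖ ≤ CT := fun v => hCT _ (Set.mem_univ _)
  have hCT0 : 0 ≤ CT := (norm_nonneg _).trans (hCT 0 (Set.mem_univ _))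
  have hgood := (good_ev (K := K)).filter_mono hU
  have hbd : ∀ v, ‖((a v * ‖h v - T (θ v)‖ ^ 2 : ℝ) : ℂ)‖ ≤ (B + CT) ^ 2 := fun v => by
    rw [Complex.norm_real, Real.norm_eq_abs,
      abs_of_nonneg (mul_nonneg (ha v).1 (sq_nonneg _))]
    calc a v * ‖h v - T (θ v)‖ ^ 2 ≤ 1 * ‖h v - T (θ v)‖ ^ 2 :=
          mul_le_mul_of_nonneg_right (ha v).2 (sq_nonneg _)
      _ = ‖h v - T (θ v)‖ ^ 2 := one_mul _
      _ ≤ (B + CT) ^ 2 := pow_le_pow_left₀ (norm_nonneg _)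
          ((norm_sub_le _ _).trans (add_le_add (hhB v) (hTb v))) 2
  have hdiff : Tendsto (cE fun v => ((a v * ‖h v - T (θ v)‖ ^ 2 : ℝ) : ℂ)) (U : Filter ℝ)
      (𝓝 ((m - X : ℝ) : ℂ)) := by
    -- real parts
    have k1 := (Complex.continuous_re.tendsto _).comp h2
    have k2 := (Complex.continuous_re.tendsto _).comp hTT
    have k3 := (Complex.continuous_re.tendsto _).comp hconj
    rw [Complex.ofReal_re] at k1 k2 k3
    have k4 := ((k1.add k2).sub (k3.const_mul 2))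
    have k5 : (m + X - 2 * X) = m - X := by ring
    rw [k5] at k4
    have k6 := (Complex.continuous_ofReal.tendsto _).comp k4
    refine k6.congr' ?_
    filter_upwards [hgood] with ε hε
    simp only [Function.comp]
    have b1 : ∀ v, ‖((a v * ‖h v‖ ^ 2 : ℝ) : ℂ)‖ ≤ B ^ 2 := fun v => by
      rw [Complex.norm_real, Real.norm_eq_abs,
        abs_of_nonneg (mul_nonneg (ha v).1 (sq_nonneg _))]
      calc a v * ‖h v‖ ^ 2 ≤ 1 * ‖h v‖ ^ 2 :=
            mul_le_mul_of_nonneg_right (ha v).2 (sq_nonneg _)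
        _ = ‖h v‖ ^ 2 := one_mul _
        _ ≤ B ^ 2 := pow_le_pow_left₀ (norm_nonneg _) (hhB v) 2
    have b2 : ∀ v, ‖((a v * ‖T (θ v)‖ ^ 2 : ℝ) : ℂ)‖ ≤ CT ^ 2 := fun v => by
      rw [Complex.norm_real, Real.norm_eq_abs,
        abs_of_nonneg (mul_nonneg (ha v).1 (sq_nonneg _))]
      calc a v * ‖T (θ v)‖ ^ 2 ≤ 1 * ‖T (θ v)‖ ^ 2 :=
            mul_le_mul_of_nonneg_right (ha v).2 (sq_nonneg _)
        _ = ‖T (θ v)‖ ^ 2 := one_mul _
        _ ≤ CT ^ 2 := pow_le_pow_left₀ (norm_nonneg _) (hTb v) 2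
    have b3 : ∀ v, ‖(a v : ℂ) * conj (T (θ v)) * h v‖ ≤ CT * B := fun v => by
      rw [norm_mul, norm_mul, RCLike.norm_conj, Complex.norm_real, Real.norm_eq_abs,
        abs_of_nonneg (ha v).1]
      calc a v * ‖T (θ v)‖ * ‖h v‖ ≤ (1 * ‖T (θ v)‖) * ‖h v‖ :=
            mul_le_mul_of_nonneg_right
              (mul_le_mul_of_nonneg_right (ha v).2 (norm_nonneg _)) (norm_nonneg _)
        _ = ‖T (θ v)‖ * ‖h v‖ := by rw [one_mul]
        _ ≤ CT * B := mul_le_mul (hTb v) (hhB v) (norm_nonneg _) hCT0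
    have b3' : ∀ v, ‖((((a v : ℂ) * conj (T (θ v)) * h v).re : ℝ) : ℂ)‖ ≤ CT * B := fun v => by
      rw [Complex.norm_real]
      exact (Complex.abs_re_le_norm _).trans (b3 v)
    have e3 : (cE (fun v => (a v : ℂ) * conj (T (θ v)) * h v) ε).re =
        (cE (fun v => ((((a v : ℂ) * conj (T (θ v)) * h v).re : ℝ) : ℂ)) ε).re := by
      rw [cE_re hε b3, cE_re hε b3']
      rfl
    have him0 : ∀ (t : HeightOneSpectrum (𝓞 K) → ℝ) (C : ℝ), (∀ v, ‖(t v : ℂ)‖ ≤ C) →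
        (((cE (fun v => (t v : ℂ)) ε).re : ℝ) : ℂ) = cE (fun v => (t v : ℂ)) ε := by
      intro t C hC
      refine Complex.ext (by rw [Complex.ofReal_re]) ?_
      rw [Complex.ofReal_im, cE_im hε hC, Pool.Agent.Y139.ID.avg_eq]
      simp
    rw [e3]
    have e1 := him0 (fun v => a v * ‖h v‖ ^ 2) (B ^ 2) b1
    have e2 := him0 (fun v => a v * ‖T (θ v)‖ ^ 2) (CT ^ 2) b2
    have e0 := him0 (fun v => ((a v : ℂ) * conj (T (θ v)) * h v).re) (CT * B) b3'
    rw [Complex.ofReal_sub, Complex.ofReal_add, Complex.ofReal_mul, e1, e2, e0]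
    have e4 : cE (fun v => (((a v * ‖h v‖ ^ 2 : ℝ)) : ℂ)) ε +
        cE (fun v => (((a v * ‖T (θ v)‖ ^ 2 : ℝ)) : ℂ)) ε -
        ((2 : ℝ) : ℂ) * cE (fun v => ((((a v : ℂ) * conj (T (θ v)) * h v).re : ℝ) : ℂ)) ε =
        cE (fun v => (((a v * ‖h v‖ ^ 2 : ℝ)) : ℂ) + (((a v * ‖T (θ v)‖ ^ 2 : ℝ)) : ℂ)) ε +
          cE (fun v => (-2 : ℂ) * ((((a v : ℂ) * conj (T (θ v)) * h v).re : ℝ) : ℂ)) ε := by
      rw [cE_add hε (B := B ^ 2) (C := CT ^ 2) b1 b2, cE_const_mul]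
      push_cast
      ring
    rw [e4, ← cE_add hε (B := B ^ 2 + CT ^ 2) (C := 2 * (CT * B)) (fun v =>
        (norm_add_le _ _).trans (add_le_add (b1 v) (b2 v))) (fun v => by
        rw [norm_mul]
        have : ‖(-2 : ℂ)‖ = 2 := by simp
        rw [this]
        exact mul_le_mul_of_nonneg_left (b3' v) (by norm_num))]
    congr 1
    funext v
    have e5 : ‖h v - T (θ v)‖ ^ 2 = ‖h v‖ ^ 2 + ‖T (θ v)‖ ^ 2 - 2 * (conj (T (θ v)) * h v).re := by
      rw [← Complex.normSq_eq_norm_sq, ← Complex.normSq_eq_norm_sq, ← Complex.normSq_eq_norm_sq,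
        Complex.normSq_sub]
      congr 2
      rw [mul_comm]
    have e6 : ((a v : ℂ) * conj (T (θ v)) * h v).re = a v * (conj (T (θ v)) * h v).re := by
      rw [mul_assoc, Complex.re_ofReal_mul]
    rw [e5, e6]
    push_cast
    ring
  refine ⟨hdiff, ?_⟩
  have h3 := (Complex.continuous_re.tendsto _).comp hdiff
  rw [Complex.ofReal_re] at h3
  refine ge_of_tendsto h3 ?_
  filter_upwards [hgood] with ε hε
  simp only [Function.comp]
  rw [cE_re hε (B := (B + CT) ^ 2) hbd, Pool.Agent.Y139.ID.avg_eq]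
  refine tsum_nonneg fun v => mul_nonneg (Pool.Agent.Y139.ID.wt_nonneg hε v) ?_
  rw [Complex.ofReal_re]
  exact mul_nonneg (ha v).1 (sq_nonneg _)

end Pool.Agent.Y722.OG
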